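import Pool.Agent.Helper59.Gap.Main

set_option autoImplicit false

/-!
# Residually soluble groups of growth at most `exp (n ^ β)` with `β < 1/4`

A finitely generated residually soluble group whose growth function is at most `exp ((C n) ^ β)`
with `β < 1/4` has a derived subgroup which is finitely generated and residually
(finite nilpotent).
-/

namespace Pool.Agent.Results.MP_c49226_al.GrowthBelowQuarter

/-- Let `G` be a residually soluble group, `S` a finite symmetric generating set, `γ` its growth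
function, `β < 1/4` and `γ n ≤ exp ((C n) ^ β)` for all `n`. Then there is `d` such that all the
derived subgroups of `G` are finitely generated; every nontrivial element of `G` survives in a
finite soluble quotient `Q` whose derived subgroup `Q ^ (d)` is nilpotent; and every nontrivial
element of `G ^ (d)` survives in a finite nilpotent image of `G ^ (d)`. -/
theorem result (G : Type) [Group G]
    (hres : ∀ g : G, g ≠ 1 → ∃ (H : Type) (_ : Group H), Group.IsSolvable H ∧
      ∃ φ : G →* H, φ g ≠ 1)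
    (S : Finset G) (hS : ∀ s ∈ S, s⁻¹ ∈ S) (hgen : Subgroup.closure (S : Set G) = ⊤)
    (γ : ℕ → ℕ)
    (hγ : ∀ n : ℕ, γ n =
      Nat.card {g : G | ∃ l : List G, l.length ≤ n ∧ (∀ x ∈ l, x ∈ S) ∧ l.prod = g})
    (β : ℝ) (hβ : β < 1 / 4)
    (hgr : ∃ C : ℕ, ∀ n : ℕ, (γ n : ℝ) ≤ Real.exp (((C : ℝ) * (n : ℝ)) ^ β)) :
    ∃ d : ℕ,
      (∀ i : ℕ, (derivedSeries G i).FG) ∧
      (∀ g : G, g ≠ 1 → ∃ (Q : Type) (_ : Group Q) (φ : G →* Q),
        Finite Q ∧ Group.IsSolvable Q ∧ Function.Surjective φ ∧ φ g ≠ 1 ∧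
        Group.IsNilpotent (derivedSeries Q d)) ∧
      (∀ g : derivedSeries G d, g ≠ 1 → ∃ (M : Type) (_ : Group M) (ψ : derivedSeries G d →* M),
        Finite M ∧ Group.IsNilpotent M ∧ Function.Surjective ψ ∧ ψ g ≠ 1) := by
  obtain ⟨C, hC⟩ := hgr
  obtain ⟨d, hfg, hd⟩ := Pool.Agent.Helper59.Gap.main G hres S hS hgen β hβ ⟨C, fun n => by
    have h := hC n
    rw [hγ n] at h
    exact h⟩
  refine ⟨d, hfg, ?_, ?_⟩
  · intro g hg
    obtain ⟨Q, hQ, φ, h1, h2, h3, h4, h5⟩ := hd g hg
    exact ⟨Q, hQ, φ, h1, h4, h2, h3, h5⟩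
  · intro g hg
    obtain ⟨Q, hQ, φ, h1, h2, h3, h4, h5⟩ := hd (g : G) (fun h => hg (Subtype.ext h))
    have hmap : (derivedSeries G d).map φ = derivedSeries Q d := map_derivedSeries_eq h2 d
    have hmem : ∀ x : derivedSeries G d, φ x ∈ derivedSeries Q d := by
      intro x
      rw [← hmap]
      exact ⟨x, x.2, rfl⟩
    refine ⟨derivedSeries Q d, inferInstance,
      (φ.comp (derivedSeries G d).subtype).codRestrict (derivedSeries Q d) hmem,
      inferInstance, h5, ?_, ?_⟩
    · rintro ⟨y, hy⟩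
      rw [← hmap] at hy
      obtain ⟨x, hx, rfl⟩ := hy
      exact ⟨⟨x, hx⟩, Subtype.ext rfl⟩
    · intro h6
      exact h3 (congrArg Subtype.val h6)

end Pool.Agent.Results.MP_c49226_al.GrowthBelowQuarter
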